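import Pool.Agent.X42.OddTwo.Basic

/-!
# Circuit covers with weights 2 and 4 of cubic graphs of oddness two

Let `G` be a finite cubic graph with a 2-factor `F` with exactly two odd circuits, and let `A` be an
even edge set, for example a circuit, one of whose components meets both odd circuits of `F`.  Let
`J` be a subset of `A`.  If `G - E(A)` is connected, or, more generally, if each component of
`(V, J)` and each component of `G - E(A)` have an even number of vertices of odd `J`-degree in common,
then the weighting with the value 4 on `J` and the value 2 elsewhere has a circuit cover.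

Proof.  Let `x`, `y` be vertices of the two odd circuits in the same component of `A`.  Colour the
edges of `F` by `(1,0)` and `(0,1)` so that only at `x` and at `y` two edges of `F` have the same
colour, and all other edges by `(1,1)`.  Adding a path in `A` from `x` to `y` to both coordinates
gives two even sets which cover all edges outside of `A`, and helper60's theorem
`TwoFourOnEvenSubgraph` (module `Pool.Agent.X60.SDC2`) applies.
-/

set_option autoImplicit false

namespace Pool.Agent.Results.MP_20b97f_co.CircuitsThroughOddCircuits

open Finset Pool.Agent.H126R2.CDC Pool.Agent.X60.SDC Pool.Agent.X42.OddTwo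

/-- The weighting with the value 4 on `J` and 2 elsewhere has a circuit cover. -/
def TwoFourCover {V E : Type} [Fintype V] [DecidableEq V] [Fintype E] [DecidableEq E]
    (G : MGraph V E) (J : Finset E) : Prop :=
  ∃ D : Multiset (Finset E), (∀ C ∈ D, G.IsCircuit C) ∧
    ∀ e, D.countP (fun C => e ∈ C) = if e ∈ J then 4 else 2

/-- **Theorem.** Let `G` be a finite cubic graph, `F` a 2-factor of `G` whose only odd circuits are
the one through `x` and the one through `y`. -/
theorem result {V E : Type} [Fintype V] [DecidableEq V] [Fintype E] [DecidableEq E]
    (G : MGraph V E) (hdeg : ∀ w, G.deg univ w = 3) (F : Finset E) (hF : ∀ w, G.deg F w = 2)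
    (x y : V) (hxy : OddAt G F x y) :
    -- circuits `C` through `x` and `y` with `G - E(C)` connected
    (∀ C : Finset E, G.IsCircuit C → (∃ e ∈ C, x ∈ G.ends e) → (∃ e ∈ C, y ∈ G.ends e) →
      (∀ X : Finset V, Closed G Cᶜ X → X = ∅ ∨ X = univ) → ∀ J ⊆ C, TwoFourCover G J) ∧
    -- even sets
    (∀ A : Finset E, G.IsEven A → Linked G A x y → ∀ J ⊆ A,
      ((∀ X : Finset V, Closed G Aᶜ X → X = ∅ ∨ X = univ) ∨
        ∀ X Y : Finset V, Closed G J X → Closed G Aᶜ Y →
          Even ((X ∩ Y).filter (fun v => Odd (G.deg J v))).card) → TwoFourCover G J) := by
  refine ⟨?_, ?_⟩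
  · intro C hC hx hy hcon J hJ
    exact two_four_connected G hdeg F hF x y hxy C hC.isEven (linked_of_circuit G C hC x y hx hy)
      hcon J hJ
  · intro A hA hl J hJ h
    rcases h with h | h
    · exact two_four_connected G hdeg F hF x y hxy A hA hl h J hJ
    · exact two_four_cover G hdeg F hF x y hxy A hA hl J hJ h

end Pool.Agent.Results.MP_20b97f_co.CircuitsThroughOddCircuits
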