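import Pool.Agent.X60.SDC3

set_option autoImplicit false

/-! Circuit covers of weights two and four, the edges of weight four forming a connected set. -/

namespace Pool.Agent.Results.MP_20b97f_co.ConnectedFours

open Finset
open Pool.Agent.H126R2.CDC

/-- Let `G` be a finite graph with all degrees at most three (for instance, a cubic graph), let
`P 0, P 1, P 2` and `Z 0, Z 1, Z 2` be even edge sets such that every edge lies in at least one of
the six sets, and let `J` be the set of the edges that lie in no `P i`, or for which the number of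
`i` with `e ∈ P i ∩ Z i` is odd. Suppose that the edge set `J` is connected: any two edges of `J`
are joined by a chain of edges of `J` in which consecutive edges share a vertex. Then the weighting
with the value four on `J` and two on all other edges has a circuit cover. -/
theorem result {V E : Type} [Fintype V] [DecidableEq V] [Fintype E] [DecidableEq E]
    (G : MGraph V E) (hdeg : ∀ v, G.deg univ v ≤ 3)
    (P Z : Fin 3 → Finset E) (hP : ∀ i, G.IsEven (P i)) (hZ : ∀ i, G.IsEven (Z i))
    (hcov : ∀ e, ∃ i, e ∈ P i ∨ e ∈ Z i) (J : Finset E)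
    (hJ : ∀ e, e ∈ J ↔ (∀ i, e ∉ P i) ∨
      Odd (univ.filter (fun i : Fin 3 => e ∈ P i ∧ e ∈ Z i)).card)
    (hconn : ∀ e ∈ J, ∀ f ∈ J,
      Relation.ReflTransGen (fun a b => b ∈ J ∧ ∃ v, v ∈ G.ends a ∧ v ∈ G.ends b) e f) :
    ∃ F : Multiset (Finset E), (∀ D ∈ F, G.IsCircuit D) ∧
      ∀ e, F.countP (fun D => e ∈ D) = if e ∈ J then 4 else 2 :=
  Pool.Agent.X60.SDC.connected_fours G hdeg P Z hP hZ hcov J hJ hconn

end Pool.Agent.Results.MP_20b97f_co.ConnectedFours
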