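import Pool.Agent.W614.SC.Main

set_option autoImplicit false

/-!
Circuit covers with weights two and four through a prescribed circuit, the weight four occurring
only away from the circuit.
-/

namespace Pool.Agent.Results.MP_20b97f_co.ThroughEveryCircuit

open Finset
open Pool.Agent.Helper347.Sab (MGraph dg IsCircuit IsCubic)

/-- `G` is a finite loopless multigraph (`MGraph`: vertex type `V`, edge type `E`, parallel edges
allowed). `dg G X v` is the number of edges of the edge set `X` at the vertex `v`, `IsCircuit G X`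
says that `X` is the edge set of a circuit, `IsCubic G` that all degrees are three.

Let `G` be bridgeless (every edge lies on a circuit) and let `C` be any circuit of `G`. Then there
are an edge set `J` and five families `F 0, ..., F 4` of circuits, each family covering every edge
at most once, such that

* the family consisting of `C` and of all members of `F 0, ..., F 4` covers every edge of `J`
  exactly four times and every other edge exactly twice;
* no member of `F 4` has a vertex in common with `C`, and `F 4` covers all edges of `J`;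
* `J` has at most half as many edges as are covered by `F 4`;
* if `G` is cubic, then `2 |J| + |C| ≤ |V|`;
* if every circuit of `G` has a vertex in common with `C`, then `J` is empty (so that `C` belongs
  to a circuit double cover). -/
theorem result {V E : Type} [Fintype V] [DecidableEq V] [Fintype E] [DecidableEq E]
    (G : MGraph V E) (hG : ∀ e, ∃ X, IsCircuit G X ∧ e ∈ X)
    (C : Finset E) (hC : IsCircuit G C) :
    ∃ (J : Finset E) (F : Fin 5 → Multiset (Finset E)),
      (∀ i, ∀ X ∈ F i, IsCircuit G X) ∧
      (∀ i e, (F i).countP (fun X => e ∈ X) ≤ 1) ∧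
      (∀ e, (C ::ₘ ∑ i, F i).countP (fun X => e ∈ X) = if e ∈ J then 4 else 2) ∧
      (∀ X ∈ F 4, ∀ e ∈ X, ∀ v ∈ G.ends e, dg G C v = 0) ∧
      (∀ e ∈ J, (F 4).countP (fun X => e ∈ X) = 1) ∧
      2 * J.card ≤ (univ.filter fun e => (F 4).countP (fun X => e ∈ X) = 1).card ∧
      (IsCubic G → 2 * J.card + C.card ≤ Fintype.card V) ∧
      ((∀ X, IsCircuit G X → ∃ v, dg G X v ≠ 0 ∧ dg G C v ≠ 0) → J = ∅) := by
  classical
  obtain ⟨F, h1, h2, h3, h4, h5, h6⟩ := Pool.Agent.W614.SC.main G hG C hC
  obtain ⟨J, hJ⟩ : ∃ J : Finset E,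
    J = univ.filter fun e => (C ::ₘ ∑ i, F i).countP (fun X => e ∈ X) = 4 := ⟨_, rfl⟩
  have hJm : ∀ e, e ∈ J ↔ (C ::ₘ ∑ i, F i).countP (fun X => e ∈ X) = 4 := by
    intro e
    rw [hJ, mem_filter]
    exact ⟨fun h => h.2, fun h => ⟨mem_univ _, h⟩⟩
  have hJ4 : ∀ e ∈ J, (F 4).countP (fun X => e ∈ X) = 1 := by
    intro e he
    rw [hJm] at he
    rcases h4 e with h | h
    · have h' : (C ::ₘ ∑ i, F i).countP (fun X => e ∈ X) = 2 := h
      omega
    · exact h.2
  refine ⟨J, F, h1, h2, ?_, h3, hJ4, ?_, ?_, ?_⟩
  · intro e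
    split_ifs with he
    · exact (hJm e).1 he
    · rcases h4 e with h | h
      · exact h
      · exact absurd ((hJm e).2 h.1) he
  · rw [hJ]
    exact h5
  · intro h
    rw [hJ]
    exact h6 h
  · intro hall
    rw [eq_empty_iff_forall_notMem]
    intro e he
    have h7 := hJ4 e he
    obtain ⟨X, hX, heX⟩ := Multiset.countP_pos.1 (by rw [h7]; norm_num :
      0 < (F 4).countP (fun X => e ∈ X))
    obtain ⟨v, hv1, hv2⟩ := hall X (h1 4 X hX)
    apply hv2
    have h8 : 0 < dg G X v := Nat.pos_of_ne_zero hv1
    unfold dg at h8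
    obtain ⟨f, hf⟩ := card_pos.1 h8
    rw [mem_filter] at hf
    exact h3 X hX f hf.1 v hf.2

end Pool.Agent.Results.MP_20b97f_co.ThroughEveryCircuit
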