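import Pool.Agent.X60.SDC2

set_option autoImplicit false

/-! Circuit covers of weights two and four, the weight four on a part of an even subgraph. -/

namespace Pool.Agent.Results.MP_20b97f_co.TwoFourOnEvenSubgraph

open Finset
open Pool.Agent.H126R2.CDC
open Pool.Agent.X60.SDC

/-- Let `G` be a finite graph with all degrees at most three (for instance, a cubic graph), and let
`A` be an even edge set which together with two further even edge sets `B` and `C` covers all edges
(so `G / A` has a nowhere-zero 4-flow). Let `J` be a subset of `A` such that every connected
component of the graph `(V, J)` and every connected component of the graph `G - A` have an even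
number of vertices of odd `J`-degree in common (in other words: for every path component of `J`
both its ends lie in the same component of `G - A`). Then the weighting with the value four on `J`
and two on all other edges has a circuit cover.

`Closed G K X` says that no edge of `K` leaves the vertex set `X`, so the hypothesis `hJ` is about
unions `X` of components of `(V, J)` and unions `Y` of components of `G - A`. -/
theorem result {V E : Type} [Fintype V] [DecidableEq V] [Fintype E] [DecidableEq E]
    (G : MGraph V E) (hdeg : ∀ v, G.deg univ v ≤ 3)
    (A B C : Finset E) (hA : G.IsEven A) (hB : G.IsEven B) (hC : G.IsEven C)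
    (hcov : ∀ e, e ∈ A ∨ e ∈ B ∨ e ∈ C)
    (J : Finset E) (hJA : J ⊆ A)
    (hJ : ∀ X Y : Finset V, Closed G J X → Closed G Aᶜ Y →
      Even ((X ∩ Y).filter (fun v => Odd (G.deg J v))).card) :
    ∃ F : Multiset (Finset E), (∀ D ∈ F, G.IsCircuit D) ∧
      ∀ e, F.countP (fun D => e ∈ D) = if e ∈ J then 4 else 2 :=
  two_four G hdeg A B C hA hB hC hcov J hJA hJ

end Pool.Agent.Results.MP_20b97f_co.TwoFourOnEvenSubgraph
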